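import Pool.Agent.W743.HP.Stm

/-!
# HP-COEF: coefficients of `DF` at the radial solution
-/

set_option autoImplicit false

open Set Filter Topology MeasureTheory

namespace Pool.Agent.W61.HP

open Pool.Agent.W743.HP

noncomputable section

section coord

variable {ι : Type} [DecidableEq ι]

theorem ue_apply (i j : ι) : (ue i : L1 ι) j = if j = i then 1 else 0 := by
  unfold ue
  by_cases h : j = i
  · subst h
    rw [lp.single_apply_self, if_pos rfl]
  · rw [lp.single_apply_ne 1 i 1 h, if_neg h]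

theorem co_aux (i k : ι) : ‖(if k = i then (1 : ℝ) else 0)‖ ≤ 1 := by
  split_ifs <;> simp

/-- the coordinate functional -/
def co (i : ι) : L1 ι →L[ℝ] ℝ := lift (fun k => if k = i then (1 : ℝ) else 0) 1 (co_aux i)

theorem co_apply (i : ι) (a : L1 ι) : co i a = a i := by
  unfold co
  rw [lift_apply, tsum_eq_single i]
  · simp
  · intro j hj
    rw [if_neg hj, smul_zero]

end coord

/-! ### Shifts -/

theorem RR_ue (i : ℕ × ℕ) : RR (ue i) = ue (i.1, i.2 + 1) := by
  unfold RR
  rw [lift_ue]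

theorem RR_zero (a : E) (n : ℕ) : RR a (n, 0) = 0 := by
  have h : (co ((n, 0) : ℕ × ℕ)).comp RR = 0 := by
    refine L1.ext_ue fun i => ?_
    rw [ContinuousLinearMap.comp_apply, RR_ue, co_apply, ue_apply, if_neg]
    · rfl
    · intro h
      have := congrArg Prod.snd h
      simp at this
  have h2 := congrArg (fun A : E →L[ℝ] ℝ => A a) h
  simpa [co_apply] using h2

theorem RR_succ (a : E) (n j : ℕ) : RR a (n, j + 1) = a (n, j) := by
  have h : (co ((n, j + 1) : ℕ × ℕ)).comp RR = co (n, j) := by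
    refine L1.ext_ue fun i => ?_
    rw [ContinuousLinearMap.comp_apply, RR_ue, co_apply, co_apply, ue_apply, ue_apply]
    obtain ⟨i1, i2⟩ := i
    simp only [Prod.mk.injEq, Nat.add_right_cancel_iff]
  have h2 := congrArg (fun A : E →L[ℝ] ℝ => A a) h
  simpa [co_apply] using h2

theorem RR_apply (a : E) (n j : ℕ) : RR a (n, j) = sh (fun i => a (n, i)) j := by
  unfold sh
  cases j with
  | zero => rw [RR_zero, if_pos rfl]
  | succ j => rw [RR_succ, if_neg (Nat.succ_ne_zero j), Nat.add_sub_cancel]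

theorem mulE_ue (i k : ℕ × ℕ) : mulE (ue i) (ue k) = (1 / 2 : ℝ) • (ue (i.1 + k.1, i.2 + k.2) : E) +
    (1 / 2 : ℝ) • ue ((i.1 - k.1) + (k.1 - i.1), i.2 + k.2 + 4 * min i.1 k.1) := by
  unfold mulE
  rw [lift₂_ue]

theorem half_add (a : E) : (1 / 2 : ℝ) • a + (1 / 2 : ℝ) • a = a := by
  rw [← add_smul]
  norm_num

theorem mulE_zero_left (n l : ℕ) : mulE (ue (n, 0)) (ue (0, l)) = ue (n, l) := by
  rw [mulE_ue]
  simp only [add_zero, zero_add, Nat.sub_zero, Nat.zero_sub, Nat.min_zero, mul_zero]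
  exact half_add _

theorem mulE_one : mulE (ue (0, 0)) = ContinuousLinearMap.id ℝ E := by
  refine L1.ext_ue fun k => ?_
  rw [mulE_ue]
  obtain ⟨k1, k2⟩ := k
  simp only [zero_add, Nat.sub_zero, Nat.zero_sub, Nat.zero_min, mul_zero, add_zero]
  exact half_add _

theorem mulE_RR (a b : E) : mulE (RR a) b = RR (mulE a b) := by
  have h : ∀ i, mulE (RR (ue i)) b = RR (mulE (ue i) b) := by
    intro i
    have h1 : mulE (RR (ue i)) = RR.comp (mulE (ue i)) := by
      refine L1.ext_ue fun k => ?_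
      rw [ContinuousLinearMap.comp_apply, RR_ue, mulE_ue, mulE_ue, map_add, map_smul, map_smul,
        RR_ue, RR_ue]
      have e1 : i.2 + 1 + k.2 = i.2 + k.2 + 1 := by omega
      have e2 : i.2 + 1 + k.2 + 4 * min i.1 k.1 = i.2 + k.2 + 4 * min i.1 k.1 + 1 := by omega
      simp only [e1]
      rw [show i.2 + k.2 + 1 + 4 * min i.1 k.1 = i.2 + k.2 + 4 * min i.1 k.1 + 1 by omega]
    rw [h1]
    rfl
  have h2 : (mulE.flip b).comp RR = RR.comp (mulE.flip b) := L1.ext_ue fun i => h i
  exact congrArg (fun A : E →L[ℝ] E => A a) h2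

theorem mulE_ue01 (b : E) : mulE (ue (0, 1)) b = RR b := by
  have h1 : (ue (0, 1) : E) = RR (ue (0, 0)) := by rw [RR_ue]
  rw [h1, mulE_RR, mulE_one]
  rfl

/-! ### Products with radial functions -/

/-- `∑ p n ue (n, 0)` -/
def L0 : Q →L[ℝ] E := lift (fun n => ue (n, 0)) 1 fun _ => (norm_ue _).le

/-- `∑ f l ue (0, l)` -/
def R0 : Q →L[ℝ] E := lift (fun l => ue (0, l)) 1 fun _ => (norm_ue _).le

theorem L0_ue (n : ℕ) : L0 (ue n) = ue (n, 0) := by unfold L0; rw [lift_ue]
theorem R0_ue (n : ℕ) : R0 (ue n) = ue (0, n) := by unfold R0; rw [lift_ue]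

theorem R0_apply (f : Q) (n j : ℕ) : R0 f (n, j) = if n = 0 then f j else 0 := by
  have h : (co ((n, j) : ℕ × ℕ)).comp R0 = (if n = 0 then (1 : ℝ) else 0) • co j := by
    refine L1.ext_ue fun i => ?_
    rw [ContinuousLinearMap.comp_apply, R0_ue, co_apply, smul_apply, co_apply,
      ue_apply, ue_apply]
    simp only [Prod.mk.injEq, smul_eq_mul]
    by_cases h1 : n = 0
    · simp [h1]
    · simp [h1]
  have h2 := congrArg (fun A : Q →L[ℝ] ℝ => A f) h
  simp only [ContinuousLinearMap.comp_apply, co_apply, smul_apply,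
    smul_eq_mul] at h2
  rw [h2]
  split_ifs <;> simp

theorem mul_rad (p f : Q) (n j : ℕ) : mulE (L0 p) (R0 f) (n, j) = p n * f j := by
  have h : ∀ i, mulE (L0 (ue i)) (R0 f) (n, j) = (ue i : Q) n * f j := by
    intro i
    have h1 : ((co ((n, j) : ℕ × ℕ)).comp (mulE (L0 (ue i)))).comp R0 =
        ((ue i : Q) n) • co j := by
      refine L1.ext_ue fun l => ?_
      rw [ContinuousLinearMap.comp_apply, ContinuousLinearMap.comp_apply, R0_ue, L0_ue,
        mulE_zero_left, co_apply, smul_apply, co_apply, ue_apply, ue_apply,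
        ue_apply, smul_eq_mul]
      simp only [Prod.mk.injEq]
      by_cases h1 : n = i
      · simp [h1]
      · simp [h1]
    have h2 := congrArg (fun A : Q →L[ℝ] ℝ => A f) h1
    simp only [ContinuousLinearMap.comp_apply, co_apply, smul_apply,
      smul_eq_mul] at h2
    exact h2
  have h2 : ((co ((n, j) : ℕ × ℕ)).comp (mulE.flip (R0 f))).comp L0 = (f j) • co n := by
    refine L1.ext_ue fun i => ?_
    rw [smul_apply, co_apply, smul_eq_mul, mul_comm, ← h i]
    simp only [ContinuousLinearMap.comp_apply, ContinuousLinearMap.flip_apply, co_apply]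
  have h3 := congrArg (fun A : Q →L[ℝ] ℝ => A p) h2
  simp only [ContinuousLinearMap.comp_apply, ContinuousLinearMap.flip_apply, co_apply,
    smul_apply, smul_eq_mul] at h3
  rw [h3, mul_comm]

/-- the radial functions -/
theorem rad_eq (a : E) (ha : ∀ n j, n ≠ 0 → a (n, j) = 0) :
    ∃ f : Q, R0 f = a ∧ ∀ j, f j = a (0, j) := by
  have hs : Summable (fun l : ℕ => |a (0, l)|) :=
    (L1.summable a).comp_injective (i := fun l : ℕ => ((0, l) : ℕ × ℕ)) (by
      intro l l' h
      simpa using h)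
  have hmem : Memℓp (fun l : ℕ => a (0, l)) 1 := by
    rw [memℓp_gen_iff (by norm_num)]
    simpa using hs
  refine ⟨⟨fun l : ℕ => a (0, l), hmem⟩, ?_, fun j => rfl⟩
  ext ⟨n, j⟩
  rw [R0_apply]
  by_cases h : n = 0
  · rw [if_pos h, h]
  · rw [if_neg h, ha n j h]

theorem mul_radial (p : Q) (a : E) (ha : ∀ n j, n ≠ 0 → a (n, j) = 0) (n j : ℕ) :
    mulE (L0 p) a (n, j) = p n * a (0, j) := by
  obtain ⟨f, rfl, hf⟩ := rad_eq a ha
  rw [mul_rad, hf]

/-! ### Values at the radial solution -/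

theorem BB_ue (i j : ℕ) : BB (ue i) (ue j) = ue ((i - j) + (j - i), 4 * min i j) := by
  unfold BB
  rw [lift₂_ue]

theorem BB_left (p : Q) : BB (ue 0) p = L0 p := by
  have h : BB (ue 0) = L0 := by
    refine L1.ext_ue fun i => ?_
    rw [BB_ue, L0_ue]
    simp
  rw [h]

theorem BB_right (p : Q) : BB p (ue 0) = L0 p := by
  have h : BB.flip (ue 0) = L0 := by
    refine L1.ext_ue fun i => ?_
    rw [ContinuousLinearMap.flip_apply, BB_ue, L0_ue]
    simp
  rw [← h]
  rfl

theorem SS_ue0 : SS (ue 0) = ue 0 := by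
  unfold SS
  rw [lift_ue]
  simp

theorem SS_apply (p : Q) (n : ℕ) : SS p n = p n / (4 * n + 1) := by
  have h : (co n).comp SS = (1 / (4 * n + 1) : ℝ) • co n := by
    refine L1.ext_ue fun i => ?_
    unfold SS
    rw [ContinuousLinearMap.comp_apply, lift_ue, map_smul, co_apply,
      smul_apply, co_apply, ue_apply, smul_eq_mul, smul_eq_mul]
    by_cases h1 : n = i
    · rw [h1]
    · rw [if_neg h1]; simp
  have h2 := congrArg (fun A : Q →L[ℝ] ℝ => A p) h
  simp only [ContinuousLinearMap.comp_apply, co_apply, smul_apply,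
    smul_eq_mul] at h2
  rw [h2]
  ring

theorem PP_ue0 : PP (ue 0) = 0 := by
  unfold PP
  rw [lift_ue, if_pos (by norm_num)]

theorem ph_rad (y : ℝ) : ph 0 (y • ue 0) = ue 0 := by
  unfold ph
  rw [map_smul, PP_ue0]
  simp

theorem XX_ue0 : XX (ue 0) = ue (0, 1) := by
  unfold XX
  rw [SS_ue0, BB_left, L0_ue, RR_ue]

theorem dXX_ue0 (p : Q) : dXX (ue 0) p = (2 : ℝ) • RR (L0 (SS p)) := by
  unfold dXX
  rw [SS_ue0, BB_left, BB_right, map_add, two_smul]

theorem sum_uh (hREG : S_REG) {α y : ℝ} (hα : 0 ≤ α) (hy0 : 0 < y) (hy1 : y < 1)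
    (hG : G 0 α (y / 2) ≠ 0) : HasSum (fun j : ℕ => (1 / 2 : ℝ) ^ j * uh α y j) 1 := by
  have hs := (hREG.1 0 α (y / 2) hα (by rw [abs_of_pos (by positivity)]; linarith)).1
  have h1 : HasSum (fun j : ℕ => c 0 α j * (y / 2) ^ j) (G 0 α (y / 2)) :=
    (Summable.of_abs hs).hasSum
  have h2 := h1.div_const (G 0 α (y / 2))
  rw [div_self hG] at h2
  refine h2.congr_fun fun j => ?_
  unfold uh
  rw [div_pow, div_pow, one_pow]
  ring

theorem UU_apply (hREG : S_REG) (hTC : S_TC) {α y : ℝ} {m : E} (hα : 0 ≤ α) (hy0 : 0 < y)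
    (hy1 : y < 1) (hG : G 0 α (y / 2) ≠ 0) (hm : IsM0 α y m) (n j : ℕ) :
    UU (y • ue 0, m) (n, j) = if n = 0 then uh α y j else 0 := by
  have h0 : (y • (ue 0 : Q)) 1 = 0 := by
    rw [lp.coeFn_smul, Pi.smul_apply, ue_apply]
    simp
  have h1 : UU (y • ue 0, m) = ue (0, 0) + TT m := by
    unfold UU
    simp only [h0]
    rw [zero_smul, add_zero]
  have h2 : UU (y • ue 0, m) (n, j) = (ue (0, 0) : E) (n, j) + TT m (n, j) := by
    rw [h1, lp.coeFn_add, Pi.add_apply]
  rw [h2, ue_apply]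
  obtain ⟨t1, t2, -, -⟩ := hTC m n
  cases j with
  | succ j =>
    rw [if_neg (by simp), zero_add, t1 j, hm]
    by_cases hn : n = 0
    · subst hn
      rw [if_pos rfl, if_pos rfl]
      unfold mh
      have h3 : ((j : ℝ) + 1) ≠ 0 := by positivity
      push_cast
      field_simp
      try ring
    · rw [if_neg hn, if_neg hn]
      simp
  | zero =>
    rw [t2]
    by_cases hn : n = 0
    · subst hn
      rw [if_pos rfl, if_pos rfl]
      have h3 := sum_uh hREG hα hy0 hy1 hG
      have h4 : HasSum (fun j : ℕ => (1 / 2 : ℝ) ^ (j + 1) * uh α y (j + 1)) (1 - uh α y 0) := by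
        have h5 := (hasSum_nat_add_iff' (f := fun j : ℕ => (1 / 2 : ℝ) ^ j * uh α y j) 1).2 h3
        simpa using h5
      have h6 : ∀ j : ℕ, (1 / 2 : ℝ) ^ (j + 1) / ((4 * ((0 : ℕ) : ℝ) + j + 1) * (j + 1)) * m (0, j)
          = -((1 / 2 : ℝ) ^ (j + 1) * uh α y (j + 1)) := by
        intro j
        rw [hm, if_pos rfl]
        unfold mh
        have h3 : ((j : ℝ) + 1) ≠ 0 := by positivity
        push_cast
        field_simp
        try ring
      rw [tsum_congr h6, h4.neg.tsum_eq]
      ring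
    · rw [if_neg (by simp [hn]), if_neg hn]
      have h6 : ∀ j : ℕ, (1 / 2 : ℝ) ^ (j + 1) / ((4 * (n : ℝ) + j + 1) * (j + 1)) * m (n, j)
          = 0 := by
        intro j
        rw [hm, if_neg hn, mul_zero]
      rw [tsum_congr h6]
      simp

theorem sh_mul (a : ℝ) (f : ℕ → ℝ) (j : ℕ) : sh (fun i => a * f i) j = a * sh f j := by
  unfold sh
  split_ifs <;> simp

theorem coef : S_REG → S_TC → S_COEF := by
  intro hREG hTC α y m hα hy0 hy1 hG hm η v
  set p' := dph η v.1 with hp'
  have hy : (y • (ue 0 : Q)) 0 = y := by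
    rw [lp.coeFn_smul, Pi.smul_apply, ue_apply, if_pos rfl, smul_eq_mul, mul_one]
  have hmr : ∀ n j, n ≠ 0 → m (n, j) = 0 := fun n j h => by rw [hm, if_neg h]
  have hRm : ∀ n j, n ≠ 0 → (RR m) (n, j) = 0 := by
    intro n j h
    rw [RR_apply]
    unfold sh
    split_ifs
    · rfl
    · exact hmr n _ h
  have hUr : ∀ n j, n ≠ 0 → UU (y • ue 0, m) (n, j) = 0 := fun n j h => by
    rw [UU_apply hREG hTC hα hy0 hy1 hG hm, if_neg h]
  have hm0 : (fun i => m (0, i)) = mh α y := by
    funext i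
    rw [hm, if_pos rfl]
  -- the two products
  have hd : ∀ a : E, (∀ n j, n ≠ 0 → a (n, j) = 0) → ∀ n j,
      mulE (dXX (ue 0) p') a (n, j) = 2 * p' n / (4 * n + 1) * sh (fun i => a (0, i)) j := by
    intro a ha n j
    rw [dXX_ue0, map_smul, smul_apply, mulE_RR, lp.coeFn_smul, Pi.smul_apply,
      RR_apply, smul_eq_mul]
    have e1 : (fun i => mulE (L0 (SS p')) a (n, i)) = fun i => (SS p' n) * a (0, i) :=
      funext fun i => mul_radial _ a ha n i
    rw [e1, sh_mul, SS_apply]
    ring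
  have hb : ∀ n j, mulE (BB (ue 0) p' + BB p' (ue 0)) (UU (y • ue 0, m)) (n, j) =
      2 * p' n * uh α y j := by
    intro n j
    rw [BB_left, BB_right, ← two_smul ℝ, map_smul, smul_apply, lp.coeFn_smul,
      Pi.smul_apply, smul_eq_mul, mul_radial _ _ hUr, UU_apply hREG hTC hα hy0 hy1 hG hm,
      if_pos rfl]
    ring
  constructor
  · intro n
    obtain ⟨t1, -, -, t4⟩ := hTC v.2 n
    have h1 : (DF α 0 (y • ue 0, m) η v).1 = NN v.2 := rfl
    rw [h1]
    have h2 := t4.mul_left (4 * (n : ℝ) + 1)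
    have h3 : (4 * (n : ℝ) + 1) * (NN v.2 n / (4 * n + 1)) = NN v.2 n := by
      have : (4 * (n : ℝ) + 1) ≠ 0 := by positivity
      field_simp
    rw [h3] at h2
    rw [← h2.tsum_eq]
    refine tsum_congr fun j => ?_
    rw [t1 j]
    have h4 : ((j : ℝ) + 1) ≠ 0 := by positivity
    have h5 : (4 * (n : ℝ) + j + 1) ≠ 0 := by positivity
    field_simp
    try ring
  · intro n j
    have h1 : (DF α 0 (y • ue 0, m) η v).2 =
        v.2 - (2 * v.1 0) • RR m -
          (2 * y) • (mulE (dXX (ue 0) p') m + RR v.2) +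
          (2 * y * v.1 0) • RR (RR m) +
          (y ^ 2) • (mulE (dXX (ue 0) p') (RR m) + RR (mulE (dXX (ue 0) p') m) + RR (RR v.2)) -
          (α * v.1 0) • UU (y • ue 0, m) -
          (α * y) • (mulE (BB (ue 0) p' + BB p' (ue 0)) (UU (y • ue 0, m)) +
            (TT v.2 + v.1 1 • ue (1, 0))) := by
      unfold DF
      simp only [ph_rad, XX_ue0, mulE_ue01, hy, BB_left (ue 0), L0_ue, mulE_one]
      rfl
    have h2 : (DF α 0 (y • ue 0, m) η v).2 (n, j) =
        v.2 (n, j) - (2 * v.1 0) * (RR m) (n, j) -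
          (2 * y) * (mulE (dXX (ue 0) p') m (n, j) + RR v.2 (n, j)) +
          (2 * y * v.1 0) * RR (RR m) (n, j) +
          (y ^ 2) * (mulE (dXX (ue 0) p') (RR m) (n, j) + RR (mulE (dXX (ue 0) p') m) (n, j) +
            RR (RR v.2) (n, j)) -
          (α * v.1 0) * UU (y • ue 0, m) (n, j) -
          (α * y) * (mulE (BB (ue 0) p' + BB p' (ue 0)) (UU (y • ue 0, m)) (n, j) +
            (TT v.2 (n, j) + v.1 1 * (ue (1, 0) : E) (n, j))) := by
      rw [h1]
      simp only [lp.coeFn_add, lp.coeFn_sub, lp.coeFn_smul, Pi.add_apply, Pi.sub_apply,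
        Pi.smul_apply, smul_eq_mul]
    rw [h2, hd m hmr, hd (RR m) hRm, hb, UU_apply hREG hTC hα hy0 hy1 hG hm, ue_apply]
    have e1 : RR m (n, j) = if n = 0 then sh (mh α y) j else 0 := by
      by_cases hn : n = 0
      · rw [if_pos hn, hn, RR_apply, hm0]
      · rw [if_neg hn, hRm n j hn]
    have e2 : RR (RR m) (n, j) = if n = 0 then sh (sh (mh α y)) j else 0 := by
      rw [RR_apply]
      by_cases hn : n = 0
      · rw [if_pos hn, hn]
        have : (fun i => RR m (0, i)) = sh (mh α y) := by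
          funext i
          rw [RR_apply, hm0]
        rw [this]
      · rw [if_neg hn]
        have : (fun i => RR m (n, i)) = fun _ => 0 := funext fun i => hRm n i hn
        rw [this]
        unfold sh
        split_ifs <;> rfl
    have e3 : RR v.2 (n, j) = sh (fun i => v.2 (n, i)) j := RR_apply _ _ _
    have e4 : RR (RR v.2) (n, j) = sh (sh (fun i => v.2 (n, i))) j := by
      rw [RR_apply]
      have : (fun i => RR v.2 (n, i)) = sh (fun i => v.2 (n, i)) := funext fun i => RR_apply _ _ _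
      rw [this]
    have e5 : RR (mulE (dXX (ue 0) p') m) (n, j) =
        2 * p' n / (4 * n + 1) * sh (sh (mh α y)) j := by
      rw [RR_apply]
      have : (fun i => mulE (dXX (ue 0) p') m (n, i)) =
          fun i => (2 * p' n / (4 * n + 1)) * sh (mh α y) i := by
        funext i
        rw [hd m hmr, hm0]
      rw [this, sh_mul]
    have e6 : (fun i => RR m (0, i)) = sh (mh α y) := by
      funext i
      rw [RR_apply, hm0]
    rw [e1, e2, e3, e4, e5, e6, hm0]
    by_cases hn : n = 0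
    · simp only [if_pos hn]
      by_cases hnj : (n, j) = (1, 0)
      · simp only [if_pos hnj]
        ring
      · simp only [if_neg hnj]
        ring
    · simp only [if_neg hn]
      by_cases hnj : (n, j) = (1, 0)
      · simp only [if_pos hnj]
        ring
      · simp only [if_neg hnj]
        ring

end

end Pool.Agent.W61.HP
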